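import Mathlib

set_option autoImplicit false

namespace Pool.Agent.Results.MP_7e9539_an.Hereditary

open Filter Topology CStarModule
open scoped InnerProductSpace

universe u v

variable (A : Type u) {E : Type v} [NonUnitalCStarAlgebra A] [PartialOrder A] [StarOrderedRing A]
  [SMul A E] [NormedAddCommGroup E] [NormedSpace ℂ E] [CStarModule A E]

/-- `B_F`: closed span of the inner products of elements of `F`. -/
noncomputable def BF (F : Submodule ℂ E) : Submodule ℂ A :=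
  (Submodule.span ℂ {a : A | ∃ x ∈ F, ∃ y ∈ F, a = ⟪x, y⟫_A}).topologicalClosure

/-- `K(F)`: closed span of the operators `x y^*`, `x, y ∈ F`. -/
noncomputable def KF (F : Submodule ℂ E) : Submodule ℂ (E →L[ℂ] E) :=
  (Submodule.span ℂ {T : E →L[ℂ] E | ∃ x ∈ F, ∃ y ∈ F, ∀ z, T z = ⟪y, z⟫_A • x}).topologicalClosure

/-- `T` acts on `B_E ⊕ E` as the matrix with entries `b, x^*, y, k`. -/
def IsMat (T : BF A (⊤ : Submodule ℂ E) × E → BF A (⊤ : Submodule ℂ E) × E) (b : A) (x y : E)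
    (k : E → E) : Prop :=
  ∀ c e, ((T (c, e)).1 : A) = (c : A) * b + ⟪x, e⟫_A ∧ (T (c, e)).2 = (c : A) • y + k e

/-- The reduced linking algebra `L_F`, as operators on `B_E ⊕ E`. -/
def Link (F : Submodule ℂ E) : Set (BF A (⊤ : Submodule ℂ E) × E → BF A (⊤ : Submodule ℂ E) × E) :=
  {T | ∃ b ∈ BF A F, ∃ x ∈ F, ∃ y ∈ F, ∃ k ∈ KF A F, IsMat A T b x y k}

/-- `F ⟨E, F⟩ ⊆ F`. -/
def TernaryHereditary (F : Submodule ℂ E) : Prop := ∀ x ∈ F, ∀ z ∈ F, ∀ y : E, ⟪y, z⟫_A • x ∈ F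

/-- `L_F L_E L_F ⊆ L_F`. -/
def LinkingHereditary (F : Submodule ℂ E) : Prop :=
  ∀ S ∈ Link A F, ∀ T ∈ Link A (⊤ : Submodule ℂ E), ∀ R ∈ Link A F, S ∘ T ∘ R ∈ Link A F

variable {A}

theorem ext' {x y : E} (h : ∀ w, ⟪w, x⟫_A = ⟪w, y⟫_A) : x = y := by
  rw [← sub_eq_zero, ← inner_self (A := A), CStarModule.inner_sub_right, h, sub_self]

theorem mul_sm (a b : A) (x : E) : (a * b) • x = a • b • x := ext' (A := A) fun w => by simp [mul_assoc]
theorem add_sm (a b : A) (x : E) : (a + b) • x = a • x + b • x := ext' (A := A) fun w => by simp [add_mul]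
theorem sm_add (a : A) (x y : E) : a • (x + y) = a • x + a • y := ext' (A := A) fun w => by simp [mul_add]
theorem sm_sm (c : ℂ) (a : A) (x : E) : (c • a) • x = c • a • x :=
  ext' (A := A) fun w => by simp [smul_mul_assoc]
theorem sm_comm (c : ℂ) (a : A) (x : E) : a • c • x = c • a • x :=
  ext' (A := A) fun w => by simp [mul_smul_comm]

theorem norm_sm (a : A) (x : E) : ‖a • x‖ ≤ ‖a‖ * ‖x‖ := by
  refine (sq_le_sq₀ (norm_nonneg _) (by positivity)).mp ?_
  rw [norm_sq_eq A, inner_op_smul_right, inner_op_smul_left, mul_pow, norm_sq_eq A (x := x)]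
  refine (norm_mul_le _ _).trans ?_
  have := norm_mul_le ⟪x, x⟫_A (star a)
  rw [norm_star] at this
  nlinarith [norm_nonneg a]

/-- the action as a continuous bilinear map -/
noncomputable def act : A →L[ℂ] E →L[ℂ] E :=
  LinearMap.mkContinuous₂ (LinearMap.mk₂ ℂ (fun a x => a • x) add_sm sm_sm sm_add sm_comm) 1
    fun a x => by simpa using norm_sm a x

theorem cont_sm {X : Type*} [TopologicalSpace X] {f : X → A} {g : X → E} (hf : Continuous f)
    (hg : Continuous g) : Continuous fun t => f t • g t :=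
  ((act (A := A) (E := E)).continuous.comp hf).clm_apply hg

theorem cont_in {X : Type*} [TopologicalSpace X] {f g : X → E} (hf : Continuous f)
    (hg : Continuous g) : Continuous fun t => ⟪f t, g t⟫_A :=
  CStarModule.continuous_inner.comp (hf.prodMk hg)

variable (A) in
/-- rank one operators -/
noncomputable def th (x y : E) : E →L[ℂ] E := (act (A := A)).flip x ∘L CStarModule.innerSL y

theorem th_apply (x y z : E) : th A x y z = ⟪y, z⟫_A • x := rfl

theorem clo {M N : Type*} [NormedAddCommGroup M] [NormedSpace ℂ M] [NormedAddCommGroup N]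
    [NormedSpace ℂ N] {s : Set M} (P : Submodule ℂ N) (hP : IsClosed (P : Set N)) (φ : M → N)
    (hc : Continuous φ) (ha : ∀ a b, φ (a + b) = φ a + φ b)
    (hs : ∀ (c : ℂ) a, ∃ d : ℂ, φ (c • a) = d • φ a) (h : ∀ a ∈ s, φ a ∈ P) :
    ∀ a ∈ (Submodule.span ℂ s).topologicalClosure, φ a ∈ P := by
  refine fun a ha' => closure_minimal (t := φ ⁻¹' P) (fun b hb => ?_) (hP.preimage hc) ha'
  induction hb using Submodule.span_induction with
  | mem x hx => exact h x hx
  | zero =>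
    have : φ 0 = 0 := by simpa using ha 0 0
    simp [this]
  | add x y _ _ hx hy => rw [Set.mem_preimage, ha]; exact P.add_mem hx hy
  | smul c x _ hx =>
    obtain ⟨d, hd⟩ := hs c x
    rw [Set.mem_preimage, hd]; exact P.smul_mem d hx

theorem bf_closed (F : Submodule ℂ E) : IsClosed (BF A F : Set A) :=
  Submodule.isClosed_topologicalClosure _
theorem kf_closed (F : Submodule ℂ E) : IsClosed (KF A F : Set (E →L[ℂ] E)) :=
  Submodule.isClosed_topologicalClosure _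
theorem in_mem {F : Submodule ℂ E} {x y : E} (hx : x ∈ F) (hy : y ∈ F) : ⟪x, y⟫_A ∈ BF A F :=
  Submodule.le_topologicalClosure _ (Submodule.subset_span ⟨x, hx, y, hy, rfl⟩)
theorem th_mem {F : Submodule ℂ E} {x y : E} (hx : x ∈ F) (hy : y ∈ F) : th A x y ∈ KF A F :=
  Submodule.le_topologicalClosure _ (Submodule.subset_span ⟨x, hx, y, hy, fun _ => rfl⟩)

theorem star_mem' {F : Submodule ℂ E} : ∀ b ∈ BF A F, star b ∈ BF A F :=
  clo _ (bf_closed F) star continuous_star star_add (fun c a => ⟨_, star_smul c a⟩) <| by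
    rintro _ ⟨x, hx, y, hy, rfl⟩
    rw [star_inner]; exact in_mem hy hx

theorem k_lin {F : Submodule ℂ E} (a : A) (x : E) : ∀ k ∈ KF A F, k (a • x) = a • k x := fun k hk => by
  have := clo (⊥ : Submodule ℂ E) (by simp) (fun k : E →L[ℂ] E => k (a • x) - a • k x)
    ((continuous_id.clm_apply continuous_const).sub
      (cont_sm continuous_const (continuous_id.clm_apply continuous_const)))
    (fun k l => by simp only [add_apply, sm_add]; abel)
    (fun c k => ⟨c, by simp only [smul_apply, sm_comm, smul_sub]⟩) (by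
      rintro T ⟨u, -, w, -, h⟩
      simp [h, mul_sm]) k hk
  exact sub_eq_zero.mp this

theorem adj [CompleteSpace E] {F : Submodule ℂ E} : ∀ k ∈ KF A F, ∃ k' ∈ KF A F,
    ∀ u w, ⟪k' u, w⟫_A = ⟪u, k w⟫_A := by
  intro k hk
  have h0 : ∀ k ∈ Submodule.span ℂ {T : E →L[ℂ] E | ∃ x ∈ F, ∃ y ∈ F, ∀ z, T z = ⟪y, z⟫_A • x},
      ∃ k' ∈ KF A F, ∀ u w, ⟪k' u, w⟫_A = ⟪u, k w⟫_A := fun k hk => by
    induction hk using Submodule.span_induction with
    | mem T hT =>
      obtain ⟨x, hx, y, hy, h⟩ := hT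
      exact ⟨th A y x, th_mem hy hx, fun u w => by simp [th_apply, h]⟩
    | zero => exact ⟨0, zero_mem _, by simp⟩
    | add x y _ _ hx hy =>
      obtain ⟨a, ha, h1⟩ := hx
      obtain ⟨b, hb, h2⟩ := hy
      exact ⟨a + b, add_mem ha hb, fun u w => by simp [h1, h2]⟩
    | smul c x _ hx =>
      obtain ⟨a, ha, h1⟩ := hx
      exact ⟨star c • a, Submodule.smul_mem _ _ ha, fun u w => by simp [h1]⟩
  obtain ⟨t, ht, hlim⟩ := mem_closure_iff_seq_limit.mp hk
  choose s hs hst using fun n => h0 _ (ht n)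
  have hle : ∀ m n, ‖s m - s n‖ ≤ ‖t m - t n‖ := fun m n =>
    ContinuousLinearMap.opNorm_le_bound _ (norm_nonneg _) fun u => by
      have h1 : ‖(s m - s n) u‖ ^ 2 ≤ ‖u‖ * (‖t m - t n‖ * ‖(s m - s n) u‖) := by
        rw [norm_sq_eq A]
        nth_rewrite 1 [sub_apply]
        rw [CStarModule.inner_sub_left, hst, hst, ← CStarModule.inner_sub_right, ← sub_apply]
        exact (norm_inner_le E).trans
          (mul_le_mul_of_nonneg_left ((t m - t n).le_opNorm _) (norm_nonneg _))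
      rcases (norm_nonneg ((s m - s n) u)).eq_or_lt with h | h
      · rw [← h]; positivity
      · nlinarith
  have hc : CauchySeq s := by
    have := hlim.cauchySeq
    rw [Metric.cauchySeq_iff] at this ⊢
    intro ε hε
    obtain ⟨N, hN⟩ := this ε hε
    exact ⟨N, fun m hm n hn => by
      have := hN m hm n hn
      rw [dist_eq_norm] at this ⊢
      exact (hle m n).trans_lt this⟩
  obtain ⟨k', hk'⟩ := cauchySeq_tendsto_of_complete hc
  refine ⟨k', (kf_closed F).mem_of_tendsto hk' (.of_forall hs), fun u w => ?_⟩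
  have h1 := ((cont_in (A := A) (f := fun T : E →L[ℂ] E => T u) (g := fun _ => w)
    (continuous_id.clm_apply continuous_const) continuous_const).tendsto k').comp hk'
  have h2 := ((cont_in (A := A) (g := fun T : E →L[ℂ] E => T w) (f := fun _ => u) continuous_const
    (continuous_id.clm_apply continuous_const)).tendsto k).comp hlim
  exact tendsto_nhds_unique h1 (h2.congr fun n => (hst n u w).symm)

section
variable {F : Submodule ℂ E} (hc : IsClosed (F : Set E)) (hF : TernaryHereditary A F)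
include hc hF

theorem p1 (a : A) {y : E} (hy : y ∈ F) : ∀ b ∈ BF A F, (b * a) • y ∈ F :=
  clo F hc (fun b => (b * a) • y) (cont_sm (continuous_id.mul continuous_const) continuous_const)
    (fun b c => by rw [add_mul, add_sm]) (fun c b => ⟨c, by rw [smul_mul_assoc, sm_sm]⟩) <| by
    rintro _ ⟨x, -, z, hz, rfl⟩
    have := hF y hy z hz (star a • x)
    rwa [inner_op_smul_left, star_star] at this

omit hc hF in
theorem b1 {β : A} (hβ : ∀ y ∈ F, β • y ∈ F) : ∀ b ∈ BF A F, β * b ∈ BF A F :=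
  clo _ (bf_closed F) (fun b => β * b) (continuous_const.mul continuous_id) (mul_add β)
    (fun c b => ⟨c, mul_smul_comm c β b⟩) <| by
    rintro _ ⟨x, hx, z, hz, rfl⟩
    rw [← inner_op_smul_right]; exact in_mem hx (hβ z hz)

theorem p0 {y : E} (hy : y ∈ F) : ∀ b ∈ BF A F, b • y ∈ F :=
  clo F hc (fun b => b • y) (cont_sm continuous_id continuous_const)
    (fun b c => add_sm _ _ _) (fun c b => ⟨c, sm_sm _ _ _⟩) <| by
    rintro _ ⟨x, -, z, hz, rfl⟩
    exact hF y hy z hz x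

theorem approx {x : E} (hx : x ∈ F) :
    x ∈ (Submodule.span ℂ {v : E | ∃ u ∈ BF A F, ∃ w ∈ F, v = u • w}).topologicalClosure := by
  let S : NonUnitalStarSubalgebra ℂ A :=
    { carrier := BF A F
      add_mem' := (BF A F).add_mem
      zero_mem' := (BF A F).zero_mem
      mul_mem' := fun ha hb => b1 (fun y hy => p0 hc hF hy _ ha) _ hb
      smul_mem' := fun c _ h => (BF A F).smul_mem c h
      star_mem' := fun h => star_mem' _ h }
  have hS : IsClosed (S : Set A) := bf_closed F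
  refine Metric.mem_closure_iff.mpr fun ε hε => ?_
  set δ := (ε / 2) ^ 2 with hδ
  have hδ0 : 0 < δ := by positivity
  let f : ℝ → ℝ := fun t => t / (|t| + δ)
  have hf : Continuous f := continuous_id.div (by fun_prop) fun t => by positivity
  have hf0 : f 0 = 0 := by simp [f]
  set a := ⟪x, x⟫_A with ha
  have ha0 : 0 ≤ a := CStarModule.inner_self_nonneg
  have hsa : IsSelfAdjoint a := .of_nonneg ha0
  have hu : cfcₙ f a ∈ S := cfcₙ_mem f (in_mem hx hx)
  refine ⟨cfcₙ f a • x, Submodule.subset_span ⟨_, hu, x, hx, rfl⟩, ?_⟩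
  have hus : star (cfcₙ f a) = cfcₙ f a := (cfcₙ_predicate f a : IsSelfAdjoint _)
  have e : ⟪x - cfcₙ f a • x, x - cfcₙ f a • x⟫_A =
      cfcₙ (fun t => t - t * f t - (f t * t - f t * (t * f t))) a := by
    rw [cfcₙ_sub .., cfcₙ_sub .., cfcₙ_sub .., cfcₙ_mul .., cfcₙ_mul .., cfcₙ_mul .., cfcₙ_mul ..,
      cfcₙ_id' ℝ a]
    simp [hus, ← ha, mul_sub]
  have h1 : ‖x - cfcₙ f a • x‖ ^ 2 ≤ (ε / 2) ^ 2 := by
    rw [norm_sq_eq A, e]
    refine norm_cfcₙ_le fun t ht => ?_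
    have ht0 : 0 ≤ t := quasispectrum_nonneg_of_nonneg a ha0 t ht
    have : t - t * f t - (f t * t - f t * (t * f t)) = δ * (t * δ / (t + δ) ^ 2) := by
      simp only [f, abs_of_nonneg ht0]; field_simp; ring
    rw [this, Real.norm_of_nonneg (by positivity)]
    refine mul_le_of_le_one_right hδ0.le ?_
    rw [div_le_one (by positivity)]; nlinarith
  rw [dist_eq_norm]
  exact ((sq_le_sq₀ (norm_nonneg _) (by positivity)).mp h1).trans_lt (by linarith)

omit hF in
theorem q1 {η : E} (hη : ∀ x ∈ F, ∀ y ∈ F, ⟪x, η⟫_A • y ∈ F) : ∀ k ∈ KF A F, k η ∈ F :=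
  clo F hc (fun k : E →L[ℂ] E => k η) (continuous_id.clm_apply continuous_const) (fun _ _ => rfl)
    (fun c _ => ⟨c, rfl⟩) <| by
    rintro T ⟨x, hx, y, hy, h⟩
    rw [h]; exact hη y hy x hx

theorem q2 {η : E} (hη : ∀ x ∈ F, ∀ y ∈ F, ⟪x, η⟫_A • y ∈ F) {x : E} (hx : x ∈ F) :
    ⟪x, η⟫_A ∈ BF A F :=
  clo _ (bf_closed F) (fun x => ⟪x, η⟫_A) (cont_in continuous_id continuous_const)
    (fun _ _ => CStarModule.inner_add_left) (fun c _ => ⟨_, inner_smul_left_complex⟩) (by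
      rintro _ ⟨u, hu, w, hw, rfl⟩
      rw [inner_op_smul_left]
      exact b1 (hη w hw) _ (star_mem' _ hu)) x (approx hc hF hx)

theorem q3 {b : A} (hb : b ∈ BF A F) (e : E) : ∀ x ∈ F, ∀ y ∈ F, ⟪x, b • e⟫_A • y ∈ F :=
  fun x _ y hy => by rw [inner_op_smul_right]; exact p1 hc hF _ hy _ hb

theorem q4 {z : E} (hz : z ∈ F) {k : E →L[ℂ] E} (hk : k ∈ KF A (⊤ : Submodule ℂ E)) :
    ∀ x ∈ F, ∀ y ∈ F, ⟪x, k z⟫_A • y ∈ F := fun x _ y hy =>
  clo F hc (fun k : E →L[ℂ] E => ⟪x, k z⟫_A • y)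
    (cont_sm (cont_in continuous_const (continuous_id.clm_apply continuous_const)) continuous_const)
    (fun _ _ => by simp [add_sm]) (fun c _ => ⟨c, by simp [sm_sm]⟩) (by
      rintro T ⟨e, -, e', -, h⟩
      have := hF y hy z hz (⟪e, x⟫_A • e')
      simpa [h] using this) k hk

theorem t1 {ξ : E} (hξ : ∀ u ∈ BF A F, u • ξ ∈ F) {y : E} (hy : y ∈ F) : th A y ξ ∈ KF A F :=
  clo _ (kf_closed F) (fun y => th A y ξ)
    (((act (A := A)).flip.continuous).clm_comp continuous_const)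
    (fun _ _ => by ext; simp [th_apply, sm_add]) (fun c _ => ⟨c, by ext; simp [th_apply, sm_comm]⟩) (by
      rintro _ ⟨u, hu, w, hw, rfl⟩
      have : th A (u • w) ξ = th A w (star u • ξ) := by ext; simp [th_apply, mul_sm]
      rw [this]; exact th_mem hw (hξ _ (star_mem' _ hu))) y (approx hc hF hy)

theorem t2 {ξ : E} (hξ : ∀ u ∈ BF A F, u • ξ ∈ F) {y : E} (hy : y ∈ F) : th A ξ y ∈ KF A F :=
  clo _ (kf_closed F) (fun y => th A ξ y)
    (continuous_const.clm_comp (CStarModule.innerSL (A := A) (E := E)).continuous)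
    (fun _ _ => by ext; simp [th_apply, add_sm]) (fun c _ => ⟨star c, by ext; simp [th_apply, sm_sm]⟩) (by
      rintro _ ⟨u, hu, w, hw, rfl⟩
      have : th A ξ (u • w) = th A (star u • ξ) w := by ext; simp [th_apply, mul_sm]
      rw [this]; exact th_mem (hξ _ (star_mem' _ hu)) hw) y (approx hc hF hy)

theorem t3 {k l : E →L[ℂ] E} (hk : k ∈ KF A F) (hl : l ∈ KF A (⊤ : Submodule ℂ E)) :
    ∀ m ∈ KF A F, k ∘L l ∘L m ∈ KF A F :=
  clo _ (kf_closed F) (fun m => k ∘L l ∘L m)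
    (continuous_const.clm_comp (continuous_const.clm_comp continuous_id))
    (fun _ _ => by ext; simp) (fun c _ => ⟨c, by ext; simp⟩) <| by
      rintro T ⟨z, hz, w, hw, h⟩
      have : k ∘L l ∘L T = th A (k (l z)) w := by
        ext; simp [th_apply, h, k_lin _ _ k hk, k_lin _ _ l hl]
      rw [this]; exact th_mem (q1 hc (q4 hc hF hz hl) k hk) hw
end

theorem result (A : Type u) (E : Type v) [NonUnitalCStarAlgebra A] [PartialOrder A]
    [StarOrderedRing A] [SMul A E] [NormedAddCommGroup E] [NormedSpace ℂ E] [CStarModule A E]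
    [CompleteSpace E] (F : Submodule ℂ E) (hc : IsClosed (F : Set E))
    (hF : TernaryHereditary A F) : LinkingHereditary A F := by
  rintro S ⟨b₁, hb₁, x₁, hx₁, y₁, hy₁, k₁, hk₁, hS⟩ T ⟨b₂, -, x₂, -, y₂, -, k₂, hk₂, hT⟩
    R ⟨b₃, hb₃, x₃, hx₃, y₃, hy₃, k₃, hk₃, hR⟩
  obtain ⟨l₂, hl₂, a₂⟩ := adj k₂ hk₂
  obtain ⟨l₃, hl₃, a₃⟩ := adj k₃ hk₃
  have hβ : ∀ y ∈ F, (b₃ * b₂ + ⟪x₂, y₃⟫_A) • y ∈ F := fun y hy => by
    rw [add_sm]; exact F.add_mem (p1 hc hF _ hy _ hb₃) (hF y hy _ hy₃ _)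
  have hη : ∀ x ∈ F, ∀ y ∈ F, ⟪x, b₃ • y₂ + k₂ y₃⟫_A • y ∈ F := fun x hx y hy => by
    rw [CStarModule.inner_add_right, add_sm]
    exact F.add_mem (q3 hc hF hb₃ _ x hx y hy) (q4 hc hF hy₃ hk₂ x hx y hy)
  have hK : ∀ k ∈ KF A F, ∀ e : E, ∀ u ∈ BF A F, u • k e ∈ F := fun k hk e u hu => by
    rw [← k_lin _ _ k hk]; exact q1 hc (q3 hc hF hu e) k hk
  have hξ : ∀ u ∈ BF A F, u • (star b₂ • x₃ + l₃ x₂) ∈ F := fun u hu => by
    rw [sm_add, ← mul_sm]; exact F.add_mem (p1 hc hF _ hx₃ _ hu) (hK _ hl₃ _ u hu)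
  refine ⟨(b₃ * b₂ + ⟪x₂, y₃⟫_A) * b₁ + ⟪x₁, b₃ • y₂ + k₂ y₃⟫_A,
    add_mem (b1 hβ _ hb₁) (q2 hc hF hη hx₁),
    star b₁ • (star b₂ • x₃ + l₃ x₂) + (⟪y₂, x₁⟫_A • x₃ + l₃ (l₂ x₁)),
    add_mem (hξ _ (star_mem' _ hb₁)) (add_mem (hF _ hx₃ _ hx₁ _) (q1 hc (q4 hc hF hx₁ hl₂) _ hl₃)),
    (b₃ * b₂ + ⟪x₂, y₃⟫_A) • y₁ + k₁ (b₃ • y₂ + k₂ y₃), add_mem (hβ _ hy₁) (q1 hc hη _ hk₁),
    th A y₁ (star b₂ • x₃ + l₃ x₂) + (th A (k₁ y₂) x₃ + k₁ ∘L k₂ ∘L k₃),
    add_mem (t1 hc hF hξ hy₁) (add_mem (t2 hc hF (hK _ hk₁ _) hx₃) (t3 hc hF hk₁ hk₂ _ hk₃)),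
    fun c e => ?_⟩
  obtain ⟨r1, r2⟩ := hR c e
  obtain ⟨s1, s2⟩ := hT (R (c, e)).1 (R (c, e)).2
  obtain ⟨u1, u2⟩ := hS (T (R (c, e))).1 (T (R (c, e))).2
  simp only [Prod.mk.eta] at s1 s2 u1 u2
  simp only [Function.comp]
  rw [u1, u2, s1, s2, r1, r2]
  constructor
  · simp only [CStarModule.inner_add_right, CStarModule.inner_add_left, inner_op_smul_right,
      inner_op_smul_left, star_star, star_inner, a₂, a₃, map_add, k_lin _ _ k₂ hk₂, add_sm, mul_sm]
    noncomm_ring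
  · simp only [CStarModule.inner_add_right, CStarModule.inner_add_left, inner_op_smul_right,
      inner_op_smul_left, star_star, a₃, map_add, k_lin _ _ k₂ hk₂, k_lin _ _ k₁ hk₁, add_sm,
      mul_sm, sm_add, add_mul, add_apply, th_apply, ContinuousLinearMap.comp_apply]
    abel

end Pool.Agent.Results.MP_7e9539_an.Hereditary
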